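import Pool.Agent.H81.Curv4

set_option autoImplicit false

open scoped Pointwise

namespace Pool.Agent.Results.MP_05553e_gt.Curvature

open Set Filter Topology

abbrev SL := Matrix.SpecialLinearGroup (Fin 4) ℝ

/-- `K` is a convex body in `ℝ^4` with `0` in its interior. -/
def IsK0 (K : Set (Fin 4 → ℝ)) : Prop :=
  IsCompact K ∧ Convex ℝ K ∧ (0 : Fin 4 → ℝ) ∈ interior K

section
variable {E : Type} [NormedAddCommGroup E] [NormedSpace ℝ E]

/-- `ρ` is a linear representation of `SL(4, ℝ)` on the finite-dimensional space `E`, and `W` is an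
invariant linear subspace. -/
def IsRep (ρ : SL → E → E) (W : Set E) : Prop :=
  FiniteDimensional ℝ E ∧ (∀ T, IsLinearMap ℝ (ρ T)) ∧ (∀ w, ρ 1 w = w) ∧
    (∀ S T w, ρ (S * T) w = ρ S (ρ T w)) ∧ (∃ U : Submodule ℝ E, (U : Set E) = W) ∧
    ∀ T, ∀ w ∈ W, ρ T w ∈ W

/-- `W ≠ 0` and the only invariant subspaces of `W` are `0` and `W`. -/
def Irred (ρ : SL → E → E) (W : Set E) : Prop :=
  (∃ w ∈ W, w ≠ 0) ∧ ∀ U : Submodule ℝ E, (U : Set E) ⊆ W → (∀ T, ∀ w ∈ U, ρ T w ∈ U) →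
    U = ⊥ ∨ (U : Set E) = W

/-- Rationality: every matrix coefficient is a polynomial in the entries of `T`. -/
def Rational (ρ : SL → E → E) : Prop :=
  ∀ (f : E →ₗ[ℝ] ℝ) (w : E), ∃ P : MvPolynomial (Fin 4 × Fin 4) ℝ,
    ∀ T : SL, f (ρ T w) = MvPolynomial.eval (fun x => T x.1 x.2) P

/-- `W` has a highest weight vector of weight `∑ p_i ε_i`: a nonzero vector fixed by the upper
unitriangular matrices, on which `diag(t)` acts by `∏ t_i ^ p_i`. -/
def HasHW (ρ : SL → E → E) (W : Set E) (p : Fin 4 → ℕ) : Prop :=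
  ∃ w ∈ W, w ≠ 0 ∧ (∀ T : SL, ((∀ i j, j < i → T i j = 0) ∧ ∀ i, T i i = 1) → ρ T w = w) ∧
    ∀ T : SL, (∀ i j, i ≠ j → T i j = 0) → ρ T w = (∏ i, T i i ^ p i) • w

/-- Highest weight `(p + q) ε_1 + q (ε_2 + ε_3)` for some `p, q ≥ 0`. -/
def Admissible (ρ : SL → E → E) (W : Set E) : Prop := ∃ p q : ℕ, HasHW ρ W ![p + q, q, q, 0]

/-- `Φ` maps `K_0` to nonempty compact convex subsets of `W`. -/
def HasValues (W : Set E) (Φ : Set (Fin 4 → ℝ) → Set E) : Prop :=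
  ∀ K, IsK0 K → Φ K ⊆ W ∧ (Φ K).Nonempty ∧ IsCompact (Φ K) ∧ Convex ℝ (Φ K)

/-- `Φ(gK) = ρ(g) Φ(K)`. -/
def Invariant {E : Type} (ρ : SL → E → E) (Φ : Set (Fin 4 → ℝ) → Set E) : Prop :=
  ∀ (T : SL) K, IsK0 K → Φ ((T : Matrix (Fin 4) (Fin 4) ℝ).mulVec '' K) = ρ T '' Φ K

/-- Minkowski valuation property. -/
def IsVal (Φ : Set (Fin 4 → ℝ) → Set E) : Prop :=
  ∀ K L, IsK0 K → IsK0 L → IsK0 (K ∪ L) → Φ (K ∪ L) + Φ (K ∩ L) = Φ K + Φ L

/-- Continuity in the Hausdorff distances (sequential form). -/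
def HCont (Φ : Set (Fin 4 → ℝ) → Set E) : Prop :=
  ∀ (Ks : ℕ → Set (Fin 4 → ℝ)) K, (∀ j, IsK0 (Ks j)) → IsK0 K →
    Tendsto (fun j => Metric.hausdorffDist (Ks j) K) atTop (𝓝 0) →
    Tendsto (fun j => Metric.hausdorffDist (Φ (Ks j)) (Φ K)) atTop (𝓝 0)

/-- An irreducible rational representation `W` of highest weight `2 ε_1 + 2 ε_2`, not admissible,
with a non-trivial invariant continuous Minkowski valuation. -/
def Counter (ρ : SL → E → E) (W : Set E) : Prop :=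
  IsRep ρ W ∧ Irred ρ W ∧ Rational ρ ∧ HasHW ρ W ![2, 2, 0, 0] ∧ ¬ Admissible ρ W ∧
    ∃ Φ : Set (Fin 4 → ℝ) → Set E, HasValues W Φ ∧ Invariant ρ Φ ∧ IsVal Φ ∧ HCont Φ ∧
      ∃ K, IsK0 K ∧ Φ K ≠ {0}

end

/-- Algebraic curvature tensors on `ℝ^4`. -/
def CurvSet : Set (Fin 4 → Fin 4 → Fin 4 → Fin 4 → ℝ) :=
  {R | (∀ i j k l, R i j k l = -R j i k l) ∧ (∀ i j k l, R i j k l = R k l i j) ∧
    ∀ i j k l, R i j k l + R i k l j + R i l j k = 0}

/-- The tensor action `(T R)_{ijkl} = ∑ T_{ia} T_{jb} T_{kc} T_{ld} R_{abcd}`. -/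
def tact (T : SL) (R : Fin 4 → Fin 4 → Fin 4 → Fin 4 → ℝ) : Fin 4 → Fin 4 → Fin 4 → Fin 4 → ℝ :=
  fun i j k l => ∑ a, ∑ b, ∑ c, ∑ d, T i a * T j b * T k c * T l d * R a b c d

open Pool.Agent.H81.Cv

lemma rat : Rational tact := by
  intro g w
  refine ⟨∑ x : Fin 4 × Fin 4 × Fin 4 × Fin 4, ∑ y : Fin 4 × Fin 4 × Fin 4 × Fin 4,
    MvPolynomial.C (g (Pi.single x.1 (Pi.single x.2.1 (Pi.single x.2.2.1 (Pi.single x.2.2.2 1)))))
      * (MvPolynomial.X (x.1, y.1) * MvPolynomial.X (x.2.1, y.2.1) *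
      MvPolynomial.X (x.2.2.1, y.2.2.1) * MvPolynomial.X (x.2.2.2, y.2.2.2) *
      MvPolynomial.C (w y.1 y.2.1 y.2.2.1 y.2.2.2)), fun T => ?_⟩
  have e : ∀ R : T4, R = ∑ x : Fin 4 × Fin 4 × Fin 4 × Fin 4, R x.1 x.2.1 x.2.2.1 x.2.2.2 •
      (Pi.single x.1 (Pi.single x.2.1 (Pi.single x.2.2.1 (Pi.single x.2.2.2 1))) : T4) := by
    intro R
    ext i j k l
    simp only [Finset.sum_apply, Pi.smul_apply, smul_eq_mul]
    rw [Finset.sum_eq_single (i, j, k, l)]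
    · simp
    · rintro ⟨a, b, c, d⟩ - h
      by_cases h1 : a = i <;> by_cases h2 : b = j <;> by_cases h3 : c = k <;>
        by_cases h4 : d = l <;> simp_all [Pi.single_apply, eq_comm]
    · simp
  rw [e (tact T w)]
  simp only [map_sum, map_smul, map_mul, MvPolynomial.eval_C, MvPolynomial.eval_X, smul_eq_mul,
    ← Finset.mul_sum]
  refine Finset.sum_congr rfl fun x _ => ?_
  rw [mul_comm]
  congr 1
  exact ev_prod _ _ _ _ _

theorem result : Counter tact CurvSet := by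
  have hne : EE.1 ≠ 0 := fun h => EE_ne (Subtype.ext h)
  refine ⟨⟨inferInstance, fun T => ⟨fun R S => ?_, fun r R => ?_⟩, fun w => ?_, fun S T w => ?_,
    ⟨Curv, rfl⟩, fun T w hw => (act T ⟨w, hw⟩).2⟩, ⟨⟨EE.1, EE.2, hne⟩, fun U h1 h2 => ?_⟩, rat,
    ⟨EE.1, EE.2, hne, fun T hT => congrArg Subtype.val (show act T EE = EE from ?_),
      fun T hT => congrArg Subtype.val
        (show act T EE = (∏ i, T i i ^ (![2, 2, 0, 0] : Fin 4 → ℕ) i) • EE from ?_)⟩, ?_,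
    fun K => {(ph K).1}, fun K _ => ⟨singleton_subset_iff.2 (ph K).2, singleton_nonempty _,
      isCompact_singleton, convex_singleton _⟩,
    fun T K h => ?_, fun K L a b c => ?_, fun Ks K a b c => ?_,
    _, ⟨cube_body.cpt, cube_body.cvx, cube_body.int⟩,
    fun h => ph_ne (Subtype.ext (singleton_injective h))⟩
  · ext i j k l; exact ev_add _ _ _ _ _ _
  · ext i j k l; exact ev_smul _ _ _ _ _ _
  · ext i j k l; exact ev_one w i j k l
  · ext i j k l; exact ((ev_quad w).ev_eq T.1 (S i) (S j) (S k) (S l)).symm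
  · refine (irred (U.comap Curv.subtype) fun T w hw => h2 T _ hw).imp (fun h => ?_) fun h => ?_
    · rw [eq_bot_iff]
      intro w hw
      have : (⟨w, h1 hw⟩ : Curv) ∈ U.comap Curv.subtype := hw
      rw [h] at this
      exact congrArg Subtype.val (show (⟨w, h1 hw⟩ : Curv) = 0 from this)
    · refine h1.antisymm fun w hw => ?_
      have : (⟨w, hw⟩ : Curv) ∈ U.comap Curv.subtype := h ▸ Submodule.mem_top
      exact this
  · refine ext0 fun s t _ => (ev_act T EE s t s t).trans ?_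
    have : p01 (Matrix.vecMul s T.1) (Matrix.vecMul t T.1) = p01 s t := by
      have h1 : ∀ i j, j < i → T.1 i j = 0 := hT.1
      have h2 : ∀ i, T.1 i i = 1 := hT.2
      simp [p01, Matrix.vecMul, dotProduct, Fin.sum_univ_four, h2, h1 1 0 (by decide),
        h1 2 0 (by decide), h1 3 0 (by decide), h1 2 1 (by decide), h1 3 1 (by decide)]
      ring
    rw [ev_EE, ev_EE, this]
  · refine ext0 fun s t _ => (ev_act T EE s t s t).trans ?_
    have : p01 (Matrix.vecMul s T.1) (Matrix.vecMul t T.1) = T 0 0 * T 1 1 * p01 s t := by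
      have h1 : ∀ i j, i ≠ j → T.1 i j = 0 := hT
      simp [p01, Matrix.vecMul, dotProduct, Fin.sum_univ_four, h1 1 0 (by decide),
        h1 2 0 (by decide), h1 3 0 (by decide), h1 2 1 (by decide), h1 3 1 (by decide),
        h1 0 1 (by decide)]
      ring
    rw [Submodule.coe_smul, ev_smul, ev_EE, ev_EE, this, Fin.prod_univ_four]
    simp
    ring
  · rintro ⟨p, q, w, hw, h0, h1, h2⟩
    refine h0 (congrArg Subtype.val (hw_zero (w := ⟨w, hw⟩) (fun T hT => Subtype.ext (h1 T hT)) ?_))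
    have hd : ∀ i j, i ≠ j → (dg ![1, 2, 2⁻¹, 1] (by simp)) i j = 0 :=
      fun i j hij => Matrix.diagonal_apply_ne _ hij
    have h3 := act_diag _ hd ⟨w, hw⟩ 0 1 0 1
    have e : ∀ i, (dg ![1, 2, 2⁻¹, 1] (by simp)) i i = ![1, 2, 2⁻¹, 1] i :=
      fun i => Matrix.diagonal_apply_eq _ i
    rw [show (act _ ⟨w, hw⟩).1 = _ from h2 _ hd, Fin.prod_univ_four] at h3
    simp [e] at h3
    show w 0 1 0 1 = 0
    linarith
  · show _ = _ '' {(ph K).1}
    rw [image_singleton]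
    exact congrArg (fun R : Curv => ({R.1} : Set T4)) (ph_eqv T ⟨h.1, h.2.1, h.2.2⟩)
  · simp only [singleton_add_singleton]
    exact congrArg (fun R : Curv => ({R.1} : Set T4))
      (ph_val ⟨a.1, a.2.1, a.2.2⟩ ⟨b.1, b.2.1, b.2.2⟩ c.2.1)
  · have hs : ∀ j, Pool.Agent.H81.Mink.Body (Ks j) := fun j => ⟨(a j).1, (a j).2.1, (a j).2.2⟩
    have hK : Pool.Agent.H81.Mink.Body K := ⟨b.1, b.2.1, b.2.2⟩
    refine squeeze_zero (fun _ => Metric.hausdorffDist_nonneg) (fun j => ?_)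
      (tendsto_iff_dist_tendsto_zero.1 (ph_tend (Pool.Agent.H81.Mink.conv_of_hd hs hK c) hs hK))
    exact Metric.hausdorffDist_le_of_mem_dist dist_nonneg
      (fun x hx => ⟨_, rfl, by rw [hx]; rfl⟩) fun x hx => ⟨_, rfl, by rw [hx, dist_comm]; rfl⟩

end Pool.Agent.Results.MP_05553e_gt.Curvature
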